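import Mathlib
import Pool.Agent.H.MP_a79530_al.Ideal

set_option autoImplicit false

open MvPolynomial

namespace Pool.Agent.Results.MP_a79530_al.NotStrict

open Pool.Agent.H.MP_a79530_al

/-- The local v-number. -/
noncomputable def vloc {K : Type*} [Field K] {n : ℕ} (I p : Ideal (MvPolynomial (Fin n) K)) : ℕ :=
  sInf {d | ∃ f : MvPolynomial (Fin n) K, f.IsHomogeneous d ∧ I.colon {f} = p}

/-- A prime associated to all powers at which the local v-number does not grow. -/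
theorem result (K : Type*) [Field K] : ∃ (n : ℕ) (s : Set (MvPolynomial (Fin n) K))
    (I p : Ideal (MvPolynomial (Fin n) K)), (∀ f ∈ s, ∃ d, f.IsHomogeneous d) ∧
    I = Ideal.span s ∧ p.IsPrime ∧
    (∀ k ≥ 1, ∃ (f : MvPolynomial (Fin n) K) (d : ℕ), f.IsHomogeneous d ∧ (I ^ k).colon {f} = p) ∧
    vloc (I ^ 2) p ≤ vloc (I ^ 1) p := by
  have h3 : (X 3 * X 4 * X 5 : MvPolynomial (Fin 6) K).IsHomogeneous 3 :=
    ((isHomogeneous_X K _).mul (isHomogeneous_X K _)).mul (isHomogeneous_X K _)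
  refine ⟨6, gens K, _, idealOfVars (Fin 6) K, fun f hf => ⟨2, gens_hom f hf⟩, rfl,
    m_max.isPrime, fun k hk => ?_, ?_⟩
  · obtain rfl | hk := hk.eq_or_lt
    · exact ⟨_, _, h3, by rw [pow_one, colon_one]⟩
    · obtain ⟨k, rfl⟩ := Nat.exists_eq_add_of_le' (show 2 ≤ k from hk)
      exact ⟨_, _, hom_pow k, colon_pow k⟩
  · rw [pow_one]
    refine le_trans (b := 3) (Nat.sInf_le ⟨_, hom_pow 0, colon_pow 0⟩)
      (le_csInf ⟨_, _, h3, colon_one⟩ ?_)
    rintro d ⟨f, hd, hf⟩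
    exact three_le f d hd (hf ▸ m_max.isPrime)

end Pool.Agent.Results.MP_a79530_al.NotStrict
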